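import Pool.Agent.Helper46.MG.Menger

/-!
# Menger's theorem, path-free form
-/

namespace MG

open Finset

variable {V : Type*} [DecidableEq V]

theorem chain_cross {R : V → V → Prop} (U : V → Prop) : ∀ l : List V, l.IsChain R →
    (∃ u ∈ l, U u) → (∃ w ∈ l, ¬ U w) → ∃ u ∈ l, ∃ w ∈ l, U u ∧ ¬ U w ∧ (R u w ∨ R w u) := by
  intro l
  induction l with
  | nil => rintro _ ⟨u, hu, _⟩; simp at hu
  | cons a l ih =>
    intro hc hu hw
    cases l with
    | nil =>
      obtain ⟨u, hu, hU⟩ := hu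
      obtain ⟨w, hw, hW⟩ := hw
      simp only [List.mem_singleton] at hu hw
      subst hu; subst hw
      exact absurd hU hW
    | cons b l =>
      rw [List.isChain_cons_cons] at hc
      by_cases hab : U a ↔ U b
      · have hu' : ∃ u ∈ b :: l, U u := by
          obtain ⟨u, hu, hU⟩ := hu
          rcases List.mem_cons.1 hu with rfl | hu
          · exact ⟨b, by simp, hab.1 hU⟩
          · exact ⟨u, hu, hU⟩
        have hw' : ∃ w ∈ b :: l, ¬ U w := by
          obtain ⟨w, hw, hW⟩ := hw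
          rcases List.mem_cons.1 hw with rfl | hw
          · exact ⟨b, by simp, fun h => hW (hab.2 h)⟩
          · exact ⟨w, hw, hW⟩
        obtain ⟨u, hu, w, hw, h⟩ := ih hc.2 hu' hw'
        exact ⟨u, List.mem_cons_of_mem _ hu, w, List.mem_cons_of_mem _ hw, h⟩
      · by_cases ha : U a
        · have hb : ¬ U b := fun hb => hab ⟨fun _ => hb, fun _ => ha⟩
          exact ⟨a, by simp, b, by simp, ha, hb, Or.inl hc.1⟩
        · have hb : U b := by
            by_contra hb
            exact hab ⟨fun h => absurd h ha, fun h => absurd h hb⟩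
          exact ⟨b, by simp, a, by simp, hb, ha, Or.inr hc.1⟩

/-- Connected vertex sets: nonempty, and no empty cut. -/
def Cnn (G : SimpleGraph V) (S : Finset V) : Prop :=
  S.Nonempty ∧ ∀ U : Finset V, (∃ u ∈ S, u ∈ U) → (∃ w ∈ S, w ∉ U) →
    ∃ u ∈ S, ∃ w ∈ S, u ∈ U ∧ w ∉ U ∧ G.Adj u w

/-- Menger's theorem, path-free form. -/
theorem menger_cut (G : SimpleGraph V) (W A B : Finset V) (hA : A ⊆ W) (k : ℕ)
    (h : ∀ U S : Finset V, U ⊆ W → Disjoint U B → S ⊆ W →
      (∀ u ∈ U, ∀ w ∈ W, G.Adj u w → w ∈ U ∨ w ∈ S) → (∀ a ∈ A, a ∈ U ∨ a ∈ S) → k ≤ S.card) :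
    ∃ L : Fin k → Finset V, (∀ i, L i ⊆ W ∧ Cnn G (L i) ∧ (∃ a ∈ L i, a ∈ A) ∧
      ∃ b ∈ L i, b ∈ B) ∧ ∀ i j, i ≠ j → Disjoint (L i) (L j) := by
  classical
  set E : Finset (V × V) := (W ×ˢ W).filter (fun e => G.Adj e.1 e.2) with hE
  have hEmem : ∀ u v, (u, v) ∈ E ↔ u ∈ W ∧ v ∈ W ∧ G.Adj u v := by
    intro u v
    rw [hE, Finset.mem_filter, Finset.mem_product]
    tauto
  have hloop : ∀ e ∈ E, e.1 ≠ e.2 := by
    rintro ⟨u, v⟩ he
    exact ((hEmem u v).1 he).2.2.ne
  have hsep : ∀ S, Sep E A B S → k ≤ S.card := by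
    intro S hS
    set U : Finset V := W.filter (fun v => ∃ l : List V, l.IsChain (fun u v => (u, v) ∈ E) ∧
      (∃ a ∈ A, l.head? = some a) ∧ l.getLast? = some v ∧ ∀ u ∈ l, u ∉ S) with hU
    have h1 : k ≤ (S ∩ W).card := by
      apply h U (S ∩ W) (Finset.filter_subset _ _)
      · rw [Finset.disjoint_left]
        intro v hv hvB
        obtain ⟨hvW, l, hc, ha, hl, hlS⟩ := Finset.mem_filter.1 hv
        obtain ⟨u, hu, huS⟩ := hS l ⟨hc, ha, v, hvB, hl⟩
        exact hlS u hu huS
      · exact Finset.inter_subset_right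
      · intro u hu w hw huw
        by_cases hwS : w ∈ S
        · exact Or.inr (Finset.mem_inter.2 ⟨hwS, hw⟩)
        left
        obtain ⟨huW, l, hc, ha, hl, hlS⟩ := Finset.mem_filter.1 hu
        refine Finset.mem_filter.2 ⟨hw, l ++ [w], ?_, ?_, by simp, ?_⟩
        · rw [List.isChain_append]
          refine ⟨hc, by simp, ?_⟩
          intro x hx y hy
          rw [hl] at hx
          simp only [Option.mem_def, Option.some.injEq] at hx
          simp only [List.head?_cons, Option.mem_def, Option.some.injEq] at hy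
          subst hx; subst hy
          exact (hEmem _ _).2 ⟨huW, hw, huw⟩
        · obtain ⟨a, haA, hla⟩ := ha
          refine ⟨a, haA, ?_⟩
          rw [List.head?_append, hla]; rfl
        · intro x hx
          rcases List.mem_append.1 hx with hx | hx
          · exact hlS x hx
          · rw [List.mem_singleton.1 hx]; exact hwS
      · intro a ha
        by_cases haS : a ∈ S
        · exact Or.inr (Finset.mem_inter.2 ⟨haS, hA ha⟩)
        · left
          refine Finset.mem_filter.2 ⟨hA ha, [a], by simp, ⟨a, ha, by simp⟩, by simp, ?_⟩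
          intro x hx
          rw [List.mem_singleton.1 hx]; exact haS
    exact h1.trans (Finset.card_le_card Finset.inter_subset_left)
  obtain ⟨P, hP, hd⟩ := menger_aux E hloop A B k hsep
  refine ⟨fun i => (P i).toFinset, ?_, ?_⟩
  · intro i
    obtain ⟨⟨hc, ⟨a, ha, hla⟩, ⟨b, hb, hlb⟩⟩, hn⟩ := hP i
    have haP : a ∈ P i := List.mem_of_mem_head? hla
    have hbP : b ∈ P i := List.mem_of_getLast? hlb
    refine ⟨?_, ⟨⟨a, by simpa using haP⟩, ?_⟩, ⟨a, by simpa using haP, ha⟩,
      ⟨b, by simpa using hbP, hb⟩⟩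
    · intro v hv
      rw [List.mem_toFinset] at hv
      by_contra hvW
      obtain ⟨u, hu, w, hw, huW, hwW, hR⟩ := chain_cross (· ∈ W) (P i) hc ⟨a, haP, hA ha⟩
        ⟨v, hv, hvW⟩
      rcases hR with hR | hR
      · exact hwW ((hEmem _ _).1 hR).2.1
      · exact hwW ((hEmem _ _).1 hR).1
    · intro U hU hW
      simp only [List.mem_toFinset] at hU hW ⊢
      obtain ⟨u, hu, w, hw, huW, hwW, hR⟩ := chain_cross (· ∈ U) (P i) hc hU hW
      refine ⟨u, hu, w, hw, huW, hwW, ?_⟩
      rcases hR with hR | hR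
      · exact ((hEmem _ _).1 hR).2.2
      · exact ((hEmem _ _).1 hR).2.2.symm
  · intro i j hij
    rw [Finset.disjoint_left]
    intro v hv hv'
    rw [List.mem_toFinset] at hv hv'
    exact hd i j hij v hv hv'

end MG
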