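import Mathlib

/-!
# Menger's theorem for finite digraphs and graphs (Goering's proof)
-/

namespace MG

open Finset

variable {V : Type*} [DecidableEq V]

/-- `l` is a walk from `A` to `B` in the digraph with edge set `E`. -/
def Wlk (E : Finset (V × V)) (A B : Finset V) (l : List V) : Prop :=
  l.IsChain (fun u v => (u, v) ∈ E) ∧ (∃ a ∈ A, l.head? = some a) ∧ ∃ b ∈ B, l.getLast? = some b

/-- `S` meets all walks from `A` to `B`. -/
def Sep (E : Finset (V × V)) (A B S : Finset V) : Prop := ∀ l, Wlk E A B l → ∃ v ∈ l, v ∈ S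

theorem first_hit (P : V → Prop) : ∀ l : List V, (∃ v ∈ l, P v) →
    ∃ xs p ys, l = xs ++ p :: ys ∧ P p ∧ ∀ u ∈ xs, ¬ P u := by
  intro l
  induction l with
  | nil => rintro ⟨v, hv, _⟩; simp at hv
  | cons a l ih =>
    intro h
    by_cases ha : P a
    · exact ⟨[], a, l, rfl, ha, by simp⟩
    · obtain ⟨v, hv, hPv⟩ := h
      rcases List.mem_cons.1 hv with rfl | hv
      · exact absurd hPv ha
      obtain ⟨xs, p, ys, rfl, hp, hxs⟩ := ih ⟨v, hv, hPv⟩
      refine ⟨a :: xs, p, ys, rfl, hp, ?_⟩
      intro u hu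
      rcases List.mem_cons.1 hu with rfl | hu
      · exact ha
      · exact hxs u hu

theorem last_hit (P : V → Prop) : ∀ l : List V, (∃ v ∈ l, P v) →
    ∃ xs p ys, l = xs ++ p :: ys ∧ P p ∧ ∀ u ∈ ys, ¬ P u := by
  intro l
  induction l with
  | nil => rintro ⟨v, hv, _⟩; simp at hv
  | cons a l ih =>
    intro h
    by_cases hl : ∃ v ∈ l, P v
    · obtain ⟨xs, p, ys, rfl, hp, hys⟩ := ih hl
      exact ⟨a :: xs, p, ys, rfl, hp, hys⟩
    · obtain ⟨v, hv, hPv⟩ := h
      rcases List.mem_cons.1 hv with rfl | hv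
      · exact ⟨[], v, l, rfl, hPv, fun u hu hPu => hl ⟨u, hu, hPu⟩⟩
      · exact absurd ⟨v, hv, hPv⟩ hl

theorem head?_append_cons {xs ys zs : List V} {p : V} :
    (xs ++ p :: ys).head? = (xs ++ p :: zs).head? := by
  cases xs <;> simp

theorem getLast?_append_cons {xs ys : List V} {p : V} :
    (xs ++ p :: ys).getLast? = (p :: ys).getLast? := by
  induction xs with
  | nil => rfl
  | cons a xs ih =>
    rw [← ih]
    cases xs <;> simp

theorem Wlk.mono {E E' : Finset (V × V)} (h : E' ⊆ E) {A B : Finset V} {l : List V}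
    (hl : Wlk E' A B l) : Wlk E A B l :=
  ⟨hl.1.imp fun _ _ he => h he, hl.2⟩

/-- Data of a linkage onto `P`. -/
structure InLink (E : Finset (V × V)) (A P : Finset V) (xs : V → List V) : Prop where
  wlk : ∀ p ∈ P, Wlk E A P (xs p ++ [p])
  nodup : ∀ p ∈ P, (xs p ++ [p]).Nodup
  out : ∀ p ∈ P, ∀ u ∈ xs p, u ∉ P
  disj : ∀ p ∈ P, ∀ p' ∈ P, p ≠ p' → ∀ v ∈ xs p ++ [p], v ∉ xs p' ++ [p']

structure OutLink (E : Finset (V × V)) (Q B : Finset V) (ys : V → List V) : Prop where
  wlk : ∀ p ∈ Q, Wlk E Q B (p :: ys p)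
  nodup : ∀ p ∈ Q, (p :: ys p).Nodup
  out : ∀ p ∈ Q, ∀ u ∈ ys p, u ∉ Q
  disj : ∀ p ∈ Q, ∀ p' ∈ Q, p ≠ p' → ∀ v ∈ p :: ys p, v ∉ p' :: ys p'

theorem inLink_of {E : Finset (V × V)} {A P : Finset V} {k : ℕ} (hP : P.card = k)
    {X : Fin k → List V} (hX : ∀ i, Wlk E A P (X i) ∧ (X i).Nodup)
    (hd : ∀ i j, i ≠ j → ∀ v ∈ X i, v ∉ X j) : ∃ xs, InLink E A P xs := by
  classical
  have h1 : ∀ i, ∃ p ∈ P, (X i).getLast? = some p := fun i => (hX i).1.2.2
  choose p hpP hp using h1
  have hmem : ∀ i, p i ∈ X i := fun i => List.mem_of_getLast? (hp i)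
  have hinj : Function.Injective p := by
    intro i j hij
    by_contra hne
    exact hd i j hne (p i) (hmem i) (by rw [hij]; exact hmem j)
  have himg : Finset.univ.image p = P := by
    apply Finset.eq_of_subset_of_card_le
    · intro v hv
      obtain ⟨i, _, rfl⟩ := Finset.mem_image.1 hv
      exact hpP i
    · rw [Finset.card_image_of_injective _ hinj, Finset.card_fin, hP]
  have hsurj : ∀ q ∈ P, ∃ i, p i = q := by
    intro q hq
    rw [← himg] at hq
    obtain ⟨i, _, hi⟩ := Finset.mem_image.1 hq
    exact ⟨i, hi⟩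
  have hform : ∀ q, ∃ xs : List V, ∀ hq : q ∈ P, ∃ i, p i = q ∧ X i = xs ++ [q] := by
    intro q
    by_cases hq : q ∈ P
    · obtain ⟨i, hi⟩ := hsurj q hq
      have h2 := hp i
      rw [List.getLast?_eq_some_iff] at h2
      obtain ⟨xs, hxs⟩ := h2
      exact ⟨xs, fun _ => ⟨i, hi, by rw [hxs, hi]⟩⟩
    · exact ⟨[], fun h => absurd h hq⟩
  choose xs hxs using hform
  refine ⟨xs, ?_, ?_, ?_, ?_⟩
  · intro q hq
    obtain ⟨i, hi, hX'⟩ := hxs q hq
    rw [← hX']; exact (hX i).1
  · intro q hq
    obtain ⟨i, hi, hX'⟩ := hxs q hq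
    rw [← hX']; exact (hX i).2
  · intro q hq u hu huP
    obtain ⟨i, hi, hX'⟩ := hxs q hq
    obtain ⟨j, hj⟩ := hsurj u huP
    by_cases hij : i = j
    · subst hij
      have h3 := (hX i).2
      rw [hX', List.nodup_append] at h3
      exact h3.2.2 u hu q (by simp) (by rw [← hj, hi])
    · exact hd i j hij u (by rw [hX']; simp [hu]) (by rw [← hj]; exact hmem j)
  · intro q hq q' hq' hne v hv hv'
    obtain ⟨i, hi, hX'⟩ := hxs q hq
    obtain ⟨j, hj, hX''⟩ := hxs q' hq'
    rw [← hX'] at hv
    rw [← hX''] at hv'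
    by_cases hij : i = j
    · subst hij
      exact hne (hi.symm.trans hj)
    · exact hd i j hij v hv hv'

theorem outLink_of {E : Finset (V × V)} {Q B : Finset V} {k : ℕ} (hQ : Q.card = k)
    {Y : Fin k → List V} (hY : ∀ i, Wlk E Q B (Y i) ∧ (Y i).Nodup)
    (hd : ∀ i j, i ≠ j → ∀ v ∈ Y i, v ∉ Y j) : ∃ ys, OutLink E Q B ys := by
  classical
  have h1 : ∀ i, ∃ p ∈ Q, (Y i).head? = some p := fun i => (hY i).1.2.1
  choose p hpP hp using h1
  have hmem : ∀ i, p i ∈ Y i := fun i => List.mem_of_mem_head? (hp i)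
  have hinj : Function.Injective p := by
    intro i j hij
    by_contra hne
    exact hd i j hne (p i) (hmem i) (by rw [hij]; exact hmem j)
  have himg : Finset.univ.image p = Q := by
    apply Finset.eq_of_subset_of_card_le
    · intro v hv
      obtain ⟨i, _, rfl⟩ := Finset.mem_image.1 hv
      exact hpP i
    · rw [Finset.card_image_of_injective _ hinj, Finset.card_fin, hQ]
  have hsurj : ∀ q ∈ Q, ∃ i, p i = q := by
    intro q hq
    rw [← himg] at hq
    obtain ⟨i, _, hi⟩ := Finset.mem_image.1 hq
    exact ⟨i, hi⟩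
  have hform : ∀ q, ∃ ys : List V, ∀ hq : q ∈ Q, ∃ i, p i = q ∧ Y i = q :: ys := by
    intro q
    by_cases hq : q ∈ Q
    · obtain ⟨i, hi⟩ := hsurj q hq
      have h2 := hp i
      rw [List.head?_eq_some_iff] at h2
      obtain ⟨ys, hys⟩ := h2
      exact ⟨ys, fun _ => ⟨i, hi, by rw [hys, hi]⟩⟩
    · exact ⟨[], fun h => absurd h hq⟩
  choose ys hys using hform
  refine ⟨ys, ?_, ?_, ?_, ?_⟩
  · intro q hq
    obtain ⟨i, hi, hX'⟩ := hys q hq
    rw [← hX']; exact (hY i).1
  · intro q hq
    obtain ⟨i, hi, hX'⟩ := hys q hq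
    rw [← hX']; exact (hY i).2
  · intro q hq u hu huP
    obtain ⟨i, hi, hX'⟩ := hys q hq
    obtain ⟨j, hj⟩ := hsurj u huP
    by_cases hij : i = j
    · subst hij
      have h3 := (hY i).2
      rw [hX', List.nodup_cons] at h3
      obtain rfl : u = q := hj.symm.trans hi
      exact h3.1 hu
    · exact hd i j hij u (by rw [hX']; simp [hu]) (by rw [← hj]; exact hmem j)
  · intro q hq q' hq' hne v hv hv'
    obtain ⟨i, hi, hX'⟩ := hys q hq
    obtain ⟨j, hj, hX''⟩ := hys q' hq'
    rw [← hX'] at hv
    rw [← hX''] at hv'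
    by_cases hij : i = j
    · subst hij
      exact hne (hi.symm.trans hj)
    · exact hd i j hij v hv hv'

theorem prefix_of_eq {X1 X2 xs : List V} {v p : V} (h : X1 ++ v :: X2 = xs ++ [p]) :
    ∀ u ∈ X1, u ∈ xs := by
  have h1 : X1 <+: xs ++ [p] := ⟨v :: X2, h⟩
  have h2 : xs <+: xs ++ [p] := ⟨[p], rfl⟩
  have h3 := congrArg List.length h
  simp only [List.length_append, List.length_cons, List.length_nil] at h3
  have h4 : X1 <+: xs := List.prefix_of_prefix_length_le h1 h2 (by omega)
  exact fun u hu => h4.subset hu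

theorem suffix_of_eq {Y1 Y2 ys : List V} {v q : V} (h : Y1 ++ v :: Y2 = q :: ys) :
    ∀ u ∈ Y2, u ∈ ys := by
  cases Y1 with
  | nil =>
    simp only [List.nil_append, List.cons.injEq] at h
    intro u hu; rw [← h.2]; exact hu
  | cons a Y1 =>
    simp only [List.cons_append, List.cons.injEq] at h
    intro u hu
    rw [← h.2]; simp [hu]

theorem menger_aux (E : Finset (V × V)) (hE : ∀ e ∈ E, e.1 ≠ e.2) : ∀ (A B : Finset V) (k : ℕ),
    (∀ S, Sep E A B S → k ≤ S.card) →
    ∃ P : Fin k → List V, (∀ i, Wlk E A B (P i) ∧ (P i).Nodup) ∧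
      ∀ i j, i ≠ j → ∀ v ∈ P i, v ∉ P j := by
  classical
  induction E using Finset.induction_on with
  | empty =>
    intro A B k h
    have hs : Sep ∅ A B (A ∩ B) := by
      rintro l ⟨hc, ⟨a, ha, hla⟩, ⟨b, hb, hlb⟩⟩
      rw [List.head?_eq_some_iff] at hla
      obtain ⟨l', rfl⟩ := hla
      cases l' with
      | nil =>
        simp only [List.getLast?_singleton, Option.some.injEq] at hlb
        subst hlb
        exact ⟨a, by simp, Finset.mem_inter.2 ⟨ha, hb⟩⟩
      | cons c l' =>
        exact absurd (List.isChain_cons_cons.1 hc).1 (by simp)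
    have hk := h _ hs
    obtain ⟨T, hT, hTc⟩ := Finset.exists_subset_card_eq hk
    let e := (Finset.equivFinOfCardEq hTc).symm
    refine ⟨fun i => [(e i : V)], ?_, ?_⟩
    · intro i
      have h1 := Finset.mem_inter.1 (hT (e i).2)
      exact ⟨⟨by simp, ⟨_, h1.1, by simp⟩, ⟨_, h1.2, by simp⟩⟩, by simp⟩
    · intro i j hij v hv hv'
      simp only [List.mem_singleton] at hv hv'
      apply hij
      apply e.injective
      apply Subtype.ext
      rw [← hv, ← hv']
  | insert e E' he ih =>
    intro A B k h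
    have hE' : ∀ e ∈ E', e.1 ≠ e.2 := fun f hf => hE f (Finset.mem_insert_of_mem hf)
    have ih := ih hE'
    by_cases hall : ∀ S, Sep E' A B S → k ≤ S.card
    · obtain ⟨P, hP, hd⟩ := ih A B k hall
      exact ⟨P, fun i => ⟨(hP i).1.mono (Finset.subset_insert _ _), (hP i).2⟩, hd⟩
    push Not at hall
    obtain ⟨S, hS, hSk⟩ := hall
    obtain ⟨x, y⟩ := e
    have hxy : x ≠ y := hE (x, y) (Finset.mem_insert_self _ _)
    set E := insert (x, y) E' with hEdef
    -- chains in E avoiding x (except at the end) are chains in E'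
    have hchainx : ∀ l : List V, l.IsChain (fun u v => (u, v) ∈ E) →
        (∀ xs p, l = xs ++ [p] → x ∉ xs) → l.IsChain (fun u v => (u, v) ∈ E') := by
      intro l
      induction l with
      | nil => intro _ _; simp
      | cons a l ihl =>
        intro hc hx
        cases l with
        | nil => simp
        | cons b l =>
          rw [List.isChain_cons_cons] at hc ⊢
          have hax : a ≠ x := by
            intro hax
            have h1 : (a :: b :: l) = (a :: (b :: l).dropLast) ++ [(b :: l).getLast (by simp)] := by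
              rw [List.cons_append, List.dropLast_append_getLast]
            exact hx _ _ h1 (by rw [hax]; simp)
          refine ⟨?_, ihl hc.2 ?_⟩
          · rcases Finset.mem_insert.1 hc.1 with h1 | h1
            · exact absurd (congrArg Prod.fst h1) hax
            · exact h1
          · intro xs p hxs
            have h2 := hx (a :: xs) p (by rw [hxs]; rfl)
            exact fun h3 => h2 (List.mem_cons_of_mem _ h3)
    have hchainy : ∀ l : List V, l.IsChain (fun u v => (u, v) ∈ E) →
        y ∉ l.tail → l.IsChain (fun u v => (u, v) ∈ E') := by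
      intro l
      induction l with
      | nil => intro _ _; simp
      | cons a l ihl =>
        intro hc hx
        cases l with
        | nil => simp
        | cons b l =>
          rw [List.isChain_cons_cons] at hc ⊢
          simp only [List.tail_cons, List.mem_cons, not_or] at hx
          refine ⟨?_, ihl hc.2 (by simpa using hx.2)⟩
          rcases Finset.mem_insert.1 hc.1 with h1 | h1
          · exact absurd (congrArg Prod.snd h1).symm hx.1
          · exact h1
    have hP : Sep E A B (insert x S) := by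
      rintro l ⟨hc, ha, hb⟩
      by_contra hno
      push Not at hno
      have hc' := hchainx l hc (by
        intro xs p hl hx
        exact hno x (by rw [hl]; simp [hx]) (Finset.mem_insert_self _ _))
      obtain ⟨v, hv, hvS⟩ := hS l ⟨hc', ha, hb⟩
      exact hno v hv (Finset.mem_insert_of_mem hvS)
    have hQ : Sep E A B (insert y S) := by
      rintro l ⟨hc, ha, hb⟩
      by_contra hno
      push Not at hno
      have hc' := hchainy l hc (by
        intro hx
        exact hno y (List.mem_of_mem_tail hx) (Finset.mem_insert_self _ _))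
      obtain ⟨v, hv, hvS⟩ := hS l ⟨hc', ha, hb⟩
      exact hno v hv (Finset.mem_insert_of_mem hvS)
    have hPk := h _ hP
    have hQk := h _ hQ
    have hxS : x ∉ S := by
      intro hx
      rw [Finset.insert_eq_of_mem hx] at hPk
      omega
    have hyS : y ∉ S := by
      intro hx
      rw [Finset.insert_eq_of_mem hx] at hQk
      omega
    have hPc : (insert x S).card = k := by
      rw [Finset.card_insert_of_notMem hxS] at hPk ⊢; omega
    have hQc : (insert y S).card = k := by
      rw [Finset.card_insert_of_notMem hyS] at hQk ⊢; omega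
    -- the two linkages
    have hsep1 : ∀ Z, Sep E' A (insert x S) Z → k ≤ Z.card := by
      intro Z hZ
      apply h
      rintro l ⟨hc, ha, hb⟩
      obtain ⟨xs, p, ys, rfl, hpP, hxs⟩ := first_hit (· ∈ insert x S) l (hP l ⟨hc, ha, hb⟩)
      have hc1 : (xs ++ [p]).IsChain (fun u v => (u, v) ∈ E) := (List.isChain_split.1 hc).1
      obtain ⟨v, hv, hvZ⟩ := hZ (xs ++ [p]) ⟨hchainx _ hc1 (by
        intro xs' p' heq hx
        have h1 : xs' = xs := (List.append_inj' heq.symm rfl).1
        rw [h1] at hx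
        exact hxs x hx (Finset.mem_insert_self _ _)), by
          obtain ⟨a, ha, hla⟩ := ha
          exact ⟨a, ha, by rw [← hla]; exact head?_append_cons⟩, ⟨p, hpP, by simp⟩⟩
      refine ⟨v, ?_, hvZ⟩
      simp only [List.mem_append, List.mem_cons, List.mem_singleton] at hv ⊢
      tauto
    have hsep2 : ∀ Z, Sep E' (insert y S) B Z → k ≤ Z.card := by
      intro Z hZ
      apply h
      rintro l ⟨hc, ha, hb⟩
      obtain ⟨xs, p, ys, rfl, hpP, hys⟩ := last_hit (· ∈ insert y S) l (hQ l ⟨hc, ha, hb⟩)
      have hc1 : (p :: ys).IsChain (fun u v => (u, v) ∈ E) := (List.isChain_split.1 hc).2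
      obtain ⟨v, hv, hvZ⟩ := hZ (p :: ys) ⟨hchainy _ hc1 (by
        intro hx
        exact hys y hx (Finset.mem_insert_self _ _)), ⟨p, hpP, by simp⟩, by
          obtain ⟨b, hb, hlb⟩ := hb
          exact ⟨b, hb, by rw [← hlb]; exact getLast?_append_cons.symm⟩⟩
      refine ⟨v, ?_, hvZ⟩
      simp only [List.mem_append, List.mem_cons] at hv ⊢
      tauto
    obtain ⟨X, hX, hXd⟩ := ih A (insert x S) k hsep1
    obtain ⟨Y, hY, hYd⟩ := ih (insert y S) B k hsep2
    obtain ⟨xs, hxs⟩ := inLink_of hPc hX hXd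
    obtain ⟨ys, hys⟩ := outLink_of hQc hY hYd
    -- intersections lie in S
    have hint : ∀ p ∈ insert x S, ∀ q ∈ insert y S, ∀ v, v ∈ xs p ++ [p] → v ∈ q :: ys q →
        v ∈ S := by
      intro p hp q hq v hv hv'
      by_contra hvS
      obtain ⟨X1, X2, hX12⟩ := List.append_of_mem hv
      obtain ⟨Y1, Y2, hY12⟩ := List.append_of_mem hv'
      have hw1 := hxs.wlk p hp
      have hw2 := hys.wlk q hq
      obtain ⟨hc1, ⟨a, ha, hla⟩, _⟩ := hw1
      obtain ⟨hc2, _, ⟨b, hb, hlb⟩⟩ := hw2
      have hX1 := prefix_of_eq hX12.symm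
      have hY2 := suffix_of_eq hY12.symm
      rw [hX12] at hc1 hla
      rw [hY12] at hc2 hlb
      have hwalk : Wlk E' A B (X1 ++ v :: Y2) := by
        refine ⟨List.isChain_split.2 ⟨(List.isChain_split.1 hc1).1, (List.isChain_split.1 hc2).2⟩,
          ⟨a, ha, ?_⟩, ⟨b, hb, ?_⟩⟩
        · rw [← hla]; exact head?_append_cons
        · rw [← hlb, getLast?_append_cons, getLast?_append_cons]
      obtain ⟨u, hu, huS⟩ := hS _ hwalk
      rcases List.mem_append.1 hu with hu | hu
      · exact hxs.out p hp u (hX1 u hu) (Finset.mem_insert_of_mem huS)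
      · rcases List.mem_cons.1 hu with rfl | hu
        · exact hvS huS
        · exact hys.out q hq u (hY2 u hu) (Finset.mem_insert_of_mem huS)
    -- the combined paths
    set σ : V → V := fun p => if p = x then y else p with hσ
    have hσx : σ x = y := by simp [hσ]
    have hσS : ∀ p ∈ S, σ p = p := by
      intro p hp
      have : p ≠ x := by rintro rfl; exact hxS hp
      simp [hσ, this]
    set Z : V → List V := fun p => if p = x then xs x ++ x :: y :: ys y else xs p ++ p :: ys p
      with hZ
    have hZx : Z x = xs x ++ x :: y :: ys y := by simp [hZ]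
    have hZS : ∀ p ∈ S, Z p = xs p ++ p :: ys p := by
      intro p hp
      have : p ≠ x := by rintro rfl; exact hxS hp
      simp [hZ, this]
    have hσQ : ∀ p ∈ insert x S, σ p ∈ insert y S := by
      intro p hp
      rcases Finset.mem_insert.1 hp with rfl | hp
      · rw [hσx]; exact Finset.mem_insert_self _ _
      · rw [hσS p hp]; exact Finset.mem_insert_of_mem hp
    have hσinj : ∀ p ∈ insert x S, ∀ p' ∈ insert x S, p ≠ p' → σ p ≠ σ p' := by
      intro p hp p' hp' hne
      rcases Finset.mem_insert.1 hp with h1 | h1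
      · rcases Finset.mem_insert.1 hp' with h2 | h2
        · exact absurd (h1.trans h2.symm) hne
        · rw [h1, hσx, hσS p' h2]; intro h3; rw [h3] at hyS; exact hyS h2
      · rcases Finset.mem_insert.1 hp' with h2 | h2
        · rw [h2, hσx, hσS p h1]; intro h3; rw [← h3] at hyS; exact hyS h1
        · rw [hσS p h1, hσS p' h2]; exact hne
    have hZmem : ∀ p ∈ insert x S, ∀ v, v ∈ Z p ↔ v ∈ xs p ++ [p] ∨ v ∈ σ p :: ys (σ p) := by
      intro p hp v
      rcases Finset.mem_insert.1 hp with rfl | hp
      · rw [hZx, hσx]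
        simp only [List.mem_append, List.mem_cons, List.mem_singleton, List.not_mem_nil, or_false]
        tauto
      · rw [hZS p hp, hσS p hp]
        simp only [List.mem_append, List.mem_cons, List.mem_singleton, List.not_mem_nil, or_false]
        tauto
    have key1 : ∀ p ∈ insert x S, Wlk E A B (Z p) ∧ (Z p).Nodup := by
      intro p hp
      obtain ⟨hc1, ⟨a, ha, hla⟩, _⟩ := hxs.wlk p hp
      obtain ⟨hc2, _, ⟨b, hb, hlb⟩⟩ := hys.wlk (σ p) (hσQ p hp)
      have hn1 := hxs.nodup p hp
      have hn2 := hys.nodup (σ p) (hσQ p hp)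
      have hi := hint p hp (σ p) (hσQ p hp)
      have ho := hxs.out p hp
      have hc1' : (xs p ++ [p]).IsChain (fun u v => (u, v) ∈ E) :=
        hc1.imp fun _ _ he => Finset.mem_insert_of_mem he
      have hc2' : (σ p :: ys (σ p)).IsChain (fun u v => (u, v) ∈ E) :=
        hc2.imp fun _ _ he => Finset.mem_insert_of_mem he
      rcases Finset.mem_insert.1 hp with rfl | hp
      · rw [hσx] at hc2' hlb hn2 hi
        rw [hZx]
        refine ⟨⟨?_, ⟨a, ha, ?_⟩, ⟨b, hb, ?_⟩⟩, ?_⟩
        · rw [List.isChain_append_cons_cons]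
          exact ⟨hc1', Finset.mem_insert_self _ _, hc2'⟩
        · rw [← hla]; exact head?_append_cons
        · rw [← hlb, getLast?_append_cons]
          rw [List.getLast?_cons_cons]
        · have h1 : xs p ++ p :: y :: ys y = (xs p ++ [p]) ++ (y :: ys y) := by simp
          rw [h1, List.nodup_append]
          refine ⟨hn1, hn2, ?_⟩
          rintro u hu w hw rfl
          have huS := hi u hu hw
          rcases List.mem_append.1 hu with hu | hu
          · exact ho u hu (Finset.mem_insert_of_mem huS)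
          · rw [List.mem_singleton] at hu
            rw [hu] at huS
            exact hxS huS
      · rw [hσS p hp] at hc2' hlb hn2 hi
        rw [hZS p hp]
        refine ⟨⟨?_, ⟨a, ha, ?_⟩, ⟨b, hb, ?_⟩⟩, ?_⟩
        · exact List.isChain_split.2 ⟨hc1', hc2'⟩
        · rw [← hla]; exact head?_append_cons
        · rw [← hlb, getLast?_append_cons]
        · rw [List.nodup_append]
          refine ⟨(List.nodup_append.1 hn1).1, hn2, ?_⟩
          rintro u hu w hw rfl
          have huS := hi u (List.mem_append_left _ hu) hw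
          exact ho u hu (Finset.mem_insert_of_mem huS)
    have key2 : ∀ p ∈ insert x S, ∀ p' ∈ insert x S, p ≠ p' → ∀ v ∈ Z p, v ∉ Z p' := by
      intro p hp p' hp' hne v hv hv'
      rw [hZmem p hp] at hv
      rw [hZmem p' hp'] at hv'
      -- crossing case
      have cross : ∀ q ∈ insert x S, ∀ q' ∈ insert x S, q ≠ q' → v ∈ xs q ++ [q] →
          v ∈ σ q' :: ys (σ q') → False := by
        intro q hq q' hq' hqq h1 h2
        have hvS := hint q hq (σ q') (hσQ q' hq') v h1 h2
        have hvq : v = q := by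
          rcases List.mem_append.1 h1 with h1 | h1
          · exact absurd (Finset.mem_insert_of_mem hvS) (hxs.out q hq v h1)
          · exact List.mem_singleton.1 h1
        have hvq' : v = σ q' := by
          rcases List.mem_cons.1 h2 with h2 | h2
          · exact h2
          · exact absurd (Finset.mem_insert_of_mem hvS) (hys.out _ (hσQ q' hq') v h2)
        have h3 : σ q = q := hσS q (by rw [← hvq]; exact hvS)
        exact hσinj q hq q' hq' hqq (by rw [h3, ← hvq, ← hvq'])
      rcases hv with hv | hv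
      · rcases hv' with hv' | hv'
        · exact hxs.disj p hp p' hp' hne v hv hv'
        · exact cross p hp p' hp' hne hv hv'
      · rcases hv' with hv' | hv'
        · exact cross p' hp' p hp hne.symm hv' hv
        · exact hys.disj (σ p) (hσQ p hp) (σ p') (hσQ p' hp') (hσinj p hp p' hp' hne) v hv hv'
    let e' := (Finset.equivFinOfCardEq hPc).symm
    refine ⟨fun i => Z (e' i), fun i => key1 _ (e' i).2, ?_⟩
    intro i j hij
    exact key2 _ (e' i).2 _ (e' j).2 (fun h1 => hij (e'.injective (Subtype.ext h1)))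

end MG
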